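import Mathlib

/-!
# Windows off zero: the sum over the gaps of a set without differences in a window

`v 0 < v 1 < ... < v n` lie in `[0, S]` and no difference lies in `[a, a + L)`. The intervals
`[v i, v (i + 1))` of length at most `L` and the translates `v i + [a, a + L)` are disjoint;
this bounds twice the total length of the short gaps plus `L` times the number of long gaps.
-/

set_option autoImplicit false

namespace Pool.Agent.Helper63.WO

open MeasureTheory Set

private lemma mono54 {n : ℕ} {v : ℕ → ℝ} (hv : ∀ i < n, v i < v (i + 1)) :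
    ∀ i j : ℕ, i ≤ j → j ≤ n → v i ≤ v j := by
  intro i j hij
  induction hij with
  | refl => intro _; exact le_rfl
  | step hk ih =>
    intro hj
    exact le_trans (ih (by omega)) (hv _ (by omega)).le

private lemma vol54 (s : Finset ℕ) (f : ℕ → ℝ) (l : ℕ → ℝ) (hl : ∀ i ∈ s, 0 ≤ l i)
    (hd : ∀ i ∈ s, ∀ j ∈ s, i < j → f i + l i ≤ f j) :
    volume (⋃ i ∈ s, Ico (f i) (f i + l i)) = ENNReal.ofReal (∑ i ∈ s, l i) := by
  rw [measure_biUnion_finset]
  · rw [ENNReal.ofReal_sum_of_nonneg hl]
    refine Finset.sum_congr rfl fun i _ => ?_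
    rw [Real.volume_Ico]
    congr 1
    ring
  · intro i hi j hj hij
    rw [Function.onFun, Set.disjoint_left]
    intro t ht ht'
    rcases lt_or_gt_of_ne hij with h | h
    · have := hd i hi j hj h
      linarith [ht.2, ht'.1]
    · have := hd j hj i hi h
      linarith [ht'.2, ht.1]
  · intro i _
    exact measurableSet_Ico

theorem gapsum {n : ℕ} {v : ℕ → ℝ} (hv : ∀ i < n, v i < v (i + 1)) {S a L lam mu : ℝ}
    (ha : 0 < a) (hL : 0 < L) (hlam : 0 ≤ lam) (hmu : 0 ≤ mu)
    (h0 : 0 ≤ v 0) (hS : v n ≤ S)
    (hfree : ∀ i ≤ n, ∀ j ≤ n, ¬ (a ≤ v j - v i ∧ v j - v i < a + L)) {h : ℝ → ℝ}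
    (h1 : ∀ d, 0 < d → d ≤ L → h d ≤ (lam + 2 * mu) * d)
    (h2 : ∀ d, L < d → h d ≤ lam * d + mu * L) :
    ∑ i ∈ Finset.range n, h (v (i + 1) - v i) ≤ (lam + mu) * S + mu * a := by
  classical
  have hmono := mono54 hv
  set al : ℕ → ℝ := fun i => if v (i + 1) - v i ≤ L then v (i + 1) - v i else 0 with hal
  set be : ℕ → ℝ := fun i => if i < n then min L (v (i + 1) - v i) else L with hbe
  have hal0 : ∀ i ∈ Finset.range n, 0 ≤ al i := by
    intro i hi
    have := hv i (Finset.mem_range.1 hi)
    simp only [hal]
    split_ifs <;> linarith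
  have hale : ∀ i ∈ Finset.range n, al i ≤ v (i + 1) - v i := by
    intro i hi
    have := hv i (Finset.mem_range.1 hi)
    simp only [hal]
    split_ifs <;> linarith
  have hbe0 : ∀ i ∈ Finset.range (n + 1), 0 ≤ be i := by
    intro i _
    simp only [hbe]
    split_ifs with hi
    · exact le_min hL.le (by linarith [hv i hi])
    · exact hL.le
  have hbeL : ∀ i, be i ≤ L := by
    intro i
    simp only [hbe]
    split_ifs
    · exact min_le_left _ _
    · exact le_rfl
  have hA := vol54 (Finset.range n) v al hal0 (by
    intro i hi j hj hij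
    have hj' := Finset.mem_range.1 hj
    have e1 := hale i hi
    have e2 := hmono (i + 1) j (by omega) hj'.le
    linarith)
  have hB := vol54 (Finset.range (n + 1)) (fun i => v i + a) be hbe0 (by
    intro i hi j hj hij
    have hj' := Finset.mem_range.1 hj
    have hin : i < n := by omega
    have e1 : be i ≤ v (i + 1) - v i := by
      simp only [hbe, if_pos hin]
      exact min_le_right _ _
    have e2 := hmono (i + 1) j (by omega) (by omega)
    show v i + a + be i ≤ v j + a
    linarith)
  have hdis : Disjoint (⋃ i ∈ Finset.range n, Ico (v i) (v i + al i))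
      (⋃ i ∈ Finset.range (n + 1), Ico (v i + a) (v i + a + be i)) := by
    rw [Set.disjoint_left]
    intro t ht ht'
    simp only [mem_iUnion, exists_prop] at ht ht'
    obtain ⟨i, hi, hti⟩ := ht
    obtain ⟨j, hj, htj⟩ := ht'
    have hi' := Finset.mem_range.1 hi
    have hj' := Finset.mem_range.1 hj
    have hij := hfree j (by omega) i hi'.le
    have hij' := hfree j (by omega) (i + 1) (by omega)
    have e1 := hale i hi
    have e2 := hbeL j
    have e3 : v i - v j < a := by
      by_contra hcon
      push Not at hcon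
      exact hij ⟨hcon, by linarith [hti.1, htj.2]⟩
    have e4 : a + L ≤ v (i + 1) - v j := by
      by_contra hcon
      push Not at hcon
      exact hij' ⟨by linarith [hti.2, htj.1], hcon⟩
    have e5 : al i = 0 := by
      simp only [hal]
      rw [if_neg (by linarith)]
    rw [e5] at hti
    linarith [hti.1, hti.2]
  have hmeas : MeasurableSet (⋃ i ∈ Finset.range (n + 1), Ico (v i + a) (v i + a + be i)) :=
    Finset.measurableSet_biUnion _ fun i _ => measurableSet_Ico
  have hsub : (⋃ i ∈ Finset.range n, Ico (v i) (v i + al i)) ∪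
      (⋃ i ∈ Finset.range (n + 1), Ico (v i + a) (v i + a + be i)) ⊆ Ico 0 (S + a + L) := by
    intro t ht
    rcases ht with ht | ht
    · simp only [mem_iUnion, exists_prop] at ht
      obtain ⟨i, hi, hti⟩ := ht
      have hi' := Finset.mem_range.1 hi
      have e1 := hale i hi
      have e2 := hmono 0 i (Nat.zero_le _) hi'.le
      have e3 := hmono (i + 1) n (by omega) le_rfl
      exact ⟨by linarith [hti.1], by linarith [hti.2]⟩
    · simp only [mem_iUnion, exists_prop] at ht
      obtain ⟨i, hi, hti⟩ := ht
      have hi' := Finset.mem_range.1 hi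
      have e1 := hbeL i
      have e2 := hmono 0 i (Nat.zero_le _) (by omega)
      have e3 := hmono i n (by omega) le_rfl
      exact ⟨by linarith [hti.1], by linarith [hti.2]⟩
  have hS0 : 0 ≤ S := le_trans h0 (le_trans (hmono 0 n (Nat.zero_le _) le_rfl) hS)
  have hvol := measure_mono (μ := volume) hsub
  rw [measure_union hdis hmeas, hA, hB, Real.volume_Ico, ← ENNReal.ofReal_add
    (Finset.sum_nonneg hal0) (Finset.sum_nonneg hbe0), ENNReal.ofReal_le_ofReal_iff
    (by linarith)] at hvol
  rw [Finset.sum_range_succ] at hvol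
  have hbn : be n = L := by simp [hbe]
  rw [hbn] at hvol
  have hterm : ∀ i ∈ Finset.range n, h (v (i + 1) - v i) ≤
      lam * (v (i + 1) - v i) + mu * (al i + be i) := by
    intro i hi
    have hi' := Finset.mem_range.1 hi
    have hpos := hv i hi'
    by_cases hc : v (i + 1) - v i ≤ L
    · have e1 : al i = v (i + 1) - v i := by simp only [hal]; rw [if_pos hc]
      have e2 : be i = v (i + 1) - v i := by
        simp only [hbe]; rw [if_pos hi', min_eq_right hc]
      rw [e1, e2]
      have := h1 (v (i + 1) - v i) (by linarith) hc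
      linarith
    · have hc' : L < v (i + 1) - v i := not_le.1 hc
      have e1 : al i = 0 := by simp only [hal]; rw [if_neg hc]
      have e2 : be i = L := by
        simp only [hbe]; rw [if_pos hi', min_eq_left hc'.le]
      rw [e1, e2]
      have := h2 (v (i + 1) - v i) hc'
      linarith
  have hsum := Finset.sum_le_sum hterm
  rw [Finset.sum_add_distrib, ← Finset.mul_sum, ← Finset.mul_sum, Finset.sum_range_sub,
    Finset.sum_add_distrib] at hsum
  have f1 : lam * (v n - v 0) ≤ lam * S := mul_le_mul_of_nonneg_left (by linarith) hlam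
  have f2 : mu * (∑ i ∈ Finset.range n, al i + ∑ i ∈ Finset.range n, be i) ≤ mu * (S + a) :=
    mul_le_mul_of_nonneg_left (by linarith) hmu
  linarith

end Pool.Agent.Helper63.WO
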